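import Mathlib

/-!
Full answer to Q1 of MP_0f7e3e_nt: there is no `3 × 3` integer matrix with all entries different
from `0, 1, -1` whose entrywise first, second and third powers all have determinant `1`.  In fact
no `3 × 3` integer matrix without zero entries has this property.
-/

namespace Pool.Agent.Results.MP_0f7e3e_nt.NoTripleUnimodular

/-- the product of two consecutive integers is nonnegative -/
lemma consec (x : ℤ) : 0 ≤ x * (x + 1) := by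
  rcases le_or_gt 0 x with h | h
  · exact mul_nonneg h (by omega)
  · exact mul_nonneg_of_nonpos_of_nonpos (by omega) (by omega)

/-- The arithmetic core: the three even and the three odd products in the determinant. -/
lemma core (P₁ P₂ P₃ N₁ N₂ N₃ : ℤ)
    (h1 : P₁ + P₂ + P₃ - (N₁ + N₂ + N₃) = 1)
    (h2 : P₁ ^ 2 + P₂ ^ 2 + P₃ ^ 2 - (N₁ ^ 2 + N₂ ^ 2 + N₃ ^ 2) = 1)
    (h3 : P₁ ^ 3 + P₂ ^ 3 + P₃ ^ 3 - (N₁ ^ 3 + N₂ ^ 3 + N₃ ^ 3) = 1)
    (hq : P₁ * P₂ * P₃ = N₁ * N₂ * N₃) (h0 : N₁ * N₂ * N₃ ≠ 0) : False := by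
  have hP1 : P₁ = 1 + (N₁ + N₂ + N₃) - P₂ - P₃ := by linarith
  -- `e₂(P) = e₂(N) + s`
  have he2 : P₁ * P₂ + P₁ * P₃ + P₂ * P₃ = N₁ * N₂ + N₁ * N₃ + N₂ * N₃ + (N₁ + N₂ + N₃) := by
    have : 2 * (P₁ * P₂ + P₁ * P₃ + P₂ * P₃) =
        2 * (N₁ * N₂ + N₁ * N₃ + N₂ * N₃ + (N₁ + N₂ + N₃)) := by
      have e1 : 2 * (P₁ * P₂ + P₁ * P₃ + P₂ * P₃) =
        (P₁ + P₂ + P₃) ^ 2 - (P₁ ^ 2 + P₂ ^ 2 + P₃ ^ 2) := by ring
      have e2 : P₁ + P₂ + P₃ = N₁ + N₂ + N₃ + 1 := by linarith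
      have e3 : P₁ ^ 2 + P₂ ^ 2 + P₃ ^ 2 = N₁ ^ 2 + N₂ ^ 2 + N₃ ^ 2 + 1 := by linarith
      rw [e1, e2, e3]; ring
    linarith
  -- `e₂(N) = 0`
  have hN : N₁ * N₂ + N₁ * N₃ + N₂ * N₃ = 0 := by
    have e1 : P₁ ^ 3 + P₂ ^ 3 + P₃ ^ 3 = (P₁ + P₂ + P₃) ^ 3 -
        3 * (P₁ + P₂ + P₃) * (P₁ * P₂ + P₁ * P₃ + P₂ * P₃) + 3 * (P₁ * P₂ * P₃) := by ring
    have e2 : N₁ ^ 3 + N₂ ^ 3 + N₃ ^ 3 = (N₁ + N₂ + N₃) ^ 3 -
        3 * (N₁ + N₂ + N₃) * (N₁ * N₂ + N₁ * N₃ + N₂ * N₃) + 3 * (N₁ * N₂ * N₃) := by ring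
    have e3 : P₁ + P₂ + P₃ = N₁ + N₂ + N₃ + 1 := by linarith
    rw [e1, e2, e3, he2, hq] at h3
    linarith
  have hP2 : P₁ * P₂ + P₁ * P₃ + P₂ * P₃ = N₁ + N₂ + N₃ := by rw [he2, hN]; ring
  set s := N₁ + N₂ + N₃ with hs
  set q := N₁ * N₂ * N₃ with hqd
  -- the cubic with roots `P₁, P₂, P₃` at a root `N` of the other one
  have key : ∀ N : ℤ, N ^ 2 * (N - s) = q → (0 < (N - s) * (2 * N + 1 - s)) → N ≠ 0 → False := by
    intro N hN0 hpos hne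
    have hF : ∀ t : ℤ, (t - P₁) * (t - P₂) * (t - P₃) = t * (t - 1) * (t - s) - q := by
      intro t
      have e1 : P₁ + P₂ + P₃ = s + 1 := by linarith
      have : (t - P₁) * (t - P₂) * (t - P₃) = t ^ 3 - (P₁ + P₂ + P₃) * t ^ 2 +
        (P₁ * P₂ + P₁ * P₃ + P₂ * P₃) * t - P₁ * P₂ * P₃ := by ring
      rw [this, e1, hP2, hq]; ring
    have hF0 : (N - P₁) * (N - P₂) * (N - P₃) = -(N * (N - s)) := by
      rw [hF, ← hN0]; ring
    have hF1 : (N + 1 - P₁) * (N + 1 - P₂) * (N + 1 - P₃) = N * (2 * N + 1 - s) := by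
      rw [hF, ← hN0]; ring
    have hprod : ((N - P₁) * (N - P₂) * (N - P₃)) *
        ((N + 1 - P₁) * (N + 1 - P₂) * (N + 1 - P₃)) =
        -(N ^ 2 * ((N - s) * (2 * N + 1 - s))) := by
      rw [hF0, hF1]; ring
    have hnn : 0 ≤ ((N - P₁) * (N - P₂) * (N - P₃)) *
        ((N + 1 - P₁) * (N + 1 - P₂) * (N + 1 - P₃)) := by
      have e : ((N - P₁) * (N - P₂) * (N - P₃)) *
        ((N + 1 - P₁) * (N + 1 - P₂) * (N + 1 - P₃)) =
        ((N - P₁) * ((N - P₁) + 1)) * ((N - P₂) * ((N - P₂) + 1)) *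
          ((N - P₃) * ((N - P₃) + 1)) := by ring
      rw [e]
      exact mul_nonneg (mul_nonneg (consec _) (consec _)) (consec _)
    have hsq : 0 < N ^ 2 := by positivity
    have := mul_pos hsq hpos
    linarith
  have r1 : N₁ ^ 2 * (N₁ - s) = q := by
    have : N₁ ^ 2 * (N₁ - s) - q = -N₁ * (N₁ * N₂ + N₁ * N₃ + N₂ * N₃) := by
      rw [hs, hqd]; ring
    rw [hN] at this; linarith
  have r2 : N₂ ^ 2 * (N₂ - s) = q := by
    have : N₂ ^ 2 * (N₂ - s) - q = -N₂ * (N₁ * N₂ + N₁ * N₃ + N₂ * N₃) := by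
      rw [hs, hqd]; ring
    rw [hN] at this; linarith
  have r3 : N₃ ^ 2 * (N₃ - s) = q := by
    have : N₃ ^ 2 * (N₃ - s) - q = -N₃ * (N₁ * N₂ + N₁ * N₃ + N₂ * N₃) := by
      rw [hs, hqd]; ring
    rw [hN] at this; linarith
  have n1 : N₁ ≠ 0 := by intro h; apply h0; rw [hqd, h]; ring
  have n2 : N₂ ≠ 0 := by intro h; apply h0; rw [hqd, h]; ring
  have n3 : N₃ ≠ 0 := by intro h; apply h0; rw [hqd, h]; ring
  -- the sign of `N` equals the sign of `q` for one of the three roots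
  have good : ∀ N : ℤ, N ^ 2 * (N - s) = q → N ≠ 0 → 0 < N * q → False := by
    intro N hr hne hsgn
    apply key N hr _ hne
    have hsq : 0 < N ^ 2 := by positivity
    rcases lt_or_gt_of_ne hne with hneg | hpos
    · have hq0 : q < 0 := by
        by_contra hc
        push Not at hc
        have := mul_nonpos_of_nonpos_of_nonneg hneg.le hc
        linarith
      have h4 : N - s < 0 := by
        by_contra hc
        push Not at hc
        have := mul_nonneg hsq.le hc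
        linarith
      exact mul_pos_of_neg_of_neg h4 (by omega)
    · have hq0 : 0 < q := by
        by_contra hc
        push Not at hc
        have := mul_nonpos_of_nonneg_of_nonpos hpos.le hc
        linarith
      have h4 : 0 < N - s := by
        by_contra hc
        push Not at hc
        have := mul_nonpos_of_nonneg_of_nonpos hsq.le hc
        linarith
      exact mul_pos h4 (by omega)
  by_cases g1 : 0 < N₁ * q
  · exact good N₁ r1 n1 g1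
  by_cases g2 : 0 < N₂ * q
  · exact good N₂ r2 n2 g2
  by_cases g3 : 0 < N₃ * q
  · exact good N₃ r3 n3 g3
  -- otherwise all three products are negative, but their product is `q⁴`
  push Not at g1 g2 g3
  have k1 : N₁ * q < 0 := lt_of_le_of_ne g1 (mul_ne_zero n1 h0)
  have k2 : N₂ * q < 0 := lt_of_le_of_ne g2 (mul_ne_zero n2 h0)
  have k3 : N₃ * q < 0 := lt_of_le_of_ne g3 (mul_ne_zero n3 h0)
  have k4 : (N₁ * q) * (N₂ * q) * (N₃ * q) < 0 :=
    mul_neg_of_pos_of_neg (mul_pos_of_neg_of_neg k1 k2) k3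
  have k5 : (N₁ * q) * (N₂ * q) * (N₃ * q) = q ^ 4 := by rw [hqd]; ring
  rw [k5] at k4
  have : 0 ≤ q ^ 4 := by positivity
  linarith

/-- No `3 × 3` integer matrix without zero entries has `det A = det A^{∘2} = det A^{∘3} = 1`; in
particular no matrix all of whose entries are different from `0, 1, -1`. -/
theorem result :
    (∀ A : Matrix (Fin 3) (Fin 3) ℤ, (∀ i j, A i j ≠ 0) →
      ¬ (A.det = 1 ∧ (A.map (fun x => x ^ 2)).det = 1 ∧ (A.map (fun x => x ^ 3)).det = 1)) ∧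
    ¬ ∃ A : Matrix (Fin 3) (Fin 3) ℤ, (∀ i j, A i j ≠ 0 ∧ A i j ≠ 1 ∧ A i j ≠ -1) ∧
      A.det = 1 ∧ (A.map (fun x => x ^ 2)).det = 1 ∧ (A.map (fun x => x ^ 3)).det = 1 := by
  have main : ∀ A : Matrix (Fin 3) (Fin 3) ℤ, (∀ i j, A i j ≠ 0) →
      ¬ (A.det = 1 ∧ (A.map (fun x => x ^ 2)).det = 1 ∧ (A.map (fun x => x ^ 3)).det = 1) := by
    rintro A hA ⟨h1, h2, h3⟩
    rw [Matrix.det_fin_three] at h1 h2 h3
    simp only [Matrix.map_apply] at h2 h3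
    apply core (A 0 0 * A 1 1 * A 2 2) (A 0 1 * A 1 2 * A 2 0) (A 0 2 * A 1 0 * A 2 1)
      (A 0 0 * A 1 2 * A 2 1) (A 0 1 * A 1 0 * A 2 2) (A 0 2 * A 1 1 * A 2 0)
    · linarith
    · linear_combination h2
    · linear_combination h3
    · ring
    · simp only [ne_eq, mul_eq_zero, not_or]
      exact ⟨⟨⟨⟨hA _ _, hA _ _⟩, hA _ _⟩, ⟨⟨hA _ _, hA _ _⟩, hA _ _⟩⟩, ⟨⟨hA _ _, hA _ _⟩, hA _ _⟩⟩
  refine ⟨main, ?_⟩
  rintro ⟨A, hA, h⟩
  exact main A (fun i j => (hA i j).1) h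

end Pool.Agent.Results.MP_0f7e3e_nt.NoTripleUnimodular
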